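import Pool.Agent.V11169.Sync5

set_option autoImplicit false

namespace Pool.Agent.Results.MP_ab4491_co.StronglySynchronised

open Finset

/-- Number of descents of a permutation `π` of `{0, …, n-1}`: the number of positions `i` such that
`i + 1 < n` and `π i > π (i+1)`. -/
def des {n : ℕ} (π : Equiv.Perm (Fin n)) : ℕ :=
  (univ.filter (fun i : Fin n => ∃ j : Fin n, j.val = i.val + 1 ∧ π j < π i)).card

/-- Number of even permutations of `n` letters with `k` descents. -/
def APlus (n k : ℕ) : ℕ :=
  ((univ : Finset (Equiv.Perm (Fin n))).filter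
    (fun π => Equiv.Perm.sign π = 1 ∧ des π = k)).card

/-- Number of odd permutations of `n` letters with `k` descents. -/
def AMinus (n k : ℕ) : ℕ :=
  ((univ : Finset (Equiv.Perm (Fin n))).filter
    (fun π => Equiv.Perm.sign π = -1 ∧ des π = k)).card

/-- The sequences `(a 0, …, a N)` and `(b 0, …, b N)` are strongly synchronised. -/
def StronglySync (N : ℕ) (a b : ℕ → ℕ) : Prop :=
  ∀ k, 1 ≤ k → k + 1 ≤ N →
    max (a (k + 1)) (b (k + 1)) * max (a (k - 1)) (b (k - 1)) ≤ (min (a k) (b k)) ^ 2

/-- For every `n ≥ 1` the sequences `(A⁺_{n,k})` and `(A⁻_{n,k})`, `0 ≤ k ≤ n - 1`, are strongly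
synchronised. -/
theorem result (n : ℕ) (_hn : 1 ≤ n) : StronglySync (n - 1) (APlus n) (AMinus n) := by
  intro k h1 h2
  exact V11169.Sync.sync_of_bd n (APlus n) (AMinus n)
    (fun d hd => V11169.Sync.NN_bd n 1 d hd) (fun d hd => V11169.Sync.NN_bd n (-1) d hd)
    k h1 (by omega)

end Pool.Agent.Results.MP_ab4491_co.StronglySynchronised
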